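import Mathlib

/-!
# Spin Kostka polynomials are not palindromic in general

`K^-_{(3,2),(2,1,1,1)}(t) = 4 (2 t + 3 t ^ 2 + 2 t ^ 3 + t ^ 4)`.
-/

open Finset Polynomial

namespace Pool.Agent.Results.MP_2c9e21_co.NotPalindromic

/-- The parts of a partition `μ` of `n` in weakly decreasing order, padded by zeros:
`part μ i` is the part with number `i`, counted from `0`. -/
def part {n : ℕ} (μ : n.Partition) (i : ℕ) : ℕ := (μ.parts.sort (· ≥ ·)).getD i 0

/-! ### Schur `Q`-functions -/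

/-- The shifted diagram of a partition; rows and columns are numbered from `0`, so that row `i`
consists of the cells `(i, j)` with `i ≤ j < ξ_i + i`. -/
def shiftedDiagram {n : ℕ} (ξ : n.Partition) : Finset (ℕ × ℕ) :=
  (Finset.range n ×ˢ Finset.range (2 * n)).filter (fun c => c.1 ≤ c.2 ∧ c.2 < part ξ c.1 + c.1)

/-- The letters `1' < 1 < 2' < 2 < ... < N' < N`: the letter `(k, false)` is the primed letter
`(k + 1)'` and `(k, true)` is the unprimed letter `k + 1`. -/
abbrev Letter (N : ℕ) : Type := Fin N × Bool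

/-- The position of a letter in the order `1' < 1 < 2' < 2 < ...`. -/
def rank {N : ℕ} (a : Letter N) : ℕ := 2 * a.1 + (if a.2 then 1 else 0)

/-- Marked shifted tableaux of shape `ξ` in the letters `1' < 1 < ... < N' < N`: weakly increasing
along rows and columns, no unprimed letter is repeated in a column, no primed letter is repeated in
a row. -/
def IsMarkedTableau {n N : ℕ} (ξ : n.Partition)
    (T : {c : ℕ × ℕ // c ∈ shiftedDiagram ξ} → Letter N) : Prop :=
  (∀ c c', c.1.1 = c'.1.1 → c.1.2 ≤ c'.1.2 → rank (T c) ≤ rank (T c')) ∧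
  (∀ c c', c.1.2 = c'.1.2 → c.1.1 ≤ c'.1.1 → rank (T c) ≤ rank (T c')) ∧
  (∀ c c', c ≠ c' → c.1.2 = c'.1.2 → T c = T c' → (T c).2 = false) ∧
  (∀ c c', c ≠ c' → c.1.1 = c'.1.1 → T c = T c' → (T c).2 = true)

open scoped Classical in
/-- The Schur `Q`-function `Q_ξ(x_1, ..., x_N)`: the sum of the monomials of all marked shifted
tableaux of shape `ξ`. -/
noncomputable def schurQ {R : Type*} [CommSemiring R] {n N : ℕ} (ξ : n.Partition) (x : Fin N → R) : R :=
  ∑ T : {c : ℕ × ℕ // c ∈ shiftedDiagram ξ} → Letter N,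
    if IsMarkedTableau ξ T then ∏ c, x (T c).1 else 0

/-! ### Hall-Littlewood `P`-functions -/

/-- `v_m(t) = ∏_{i = 1}^m (1 - t ^ i) / (1 - t) = ∏_{i = 1}^m (1 + t + ... + t ^ (i - 1))`. -/
def vFactor (m : ℕ) (t : ℝ) : ℝ := ∏ i ∈ Finset.range m, ∑ j ∈ Finset.range (i + 1), t ^ j

/-- `v_μ(t) = ∏_{i ≥ 0} v_{m_i}(t)` for a partition `μ` with at most `N` parts, where `m_i` is the
number of parts equal to `i` and `m_0 = N - ℓ(μ)`. -/
def vProduct {n : ℕ} (N : ℕ) (μ : n.Partition) (t : ℝ) : ℝ :=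
  vFactor (N - Multiset.card μ.parts) t *
    ∏ i ∈ Finset.Icc 1 n, vFactor (μ.parts.count i) t

/-- The Hall-Littlewood function `P_μ(x_1, ..., x_N; t)` of a partition with at most `N` parts,
`(1 / v_μ(t)) ∑_{w ∈ S_N} w (x^μ ∏_{i < j} (x_i - t x_j) / (x_i - x_j))`, for pairwise distinct
`x_i`. -/
noncomputable def hallLittlewoodP {n N : ℕ} (μ : n.Partition) (x : Fin N → ℝ) (t : ℝ) : ℝ :=
  1 / vProduct N μ t * ∑ w : Equiv.Perm (Fin N),
    (∏ i, x (w i) ^ part μ i) *
      ∏ i, ∏ j, if i < j then (x (w i) - t * x (w j)) / (x (w i) - x (w j)) else 1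

/-! ### Spin Kostka polynomials -/

/-- `K` is the family of the spin Kostka polynomials: for every strict partition `ξ` one has
`Q_ξ(x) = ∑_μ K_{ξ μ}(t) P_μ(x; t)` in any number `N` of variables (the sum is over the partitions
`μ` of the size of `ξ`, and `P_μ` vanishes if `μ` has more than `N` parts). -/
def IsSpinKostka (K : ∀ n : ℕ, n.Partition → n.Partition → ℤ[X]) : Prop :=
  ∀ (n : ℕ) (ξ : n.Partition), ξ.parts.Nodup → ∀ (N : ℕ) (x : Fin N → ℝ), Function.Injective x →
    ∀ t : ℝ, 0 < t → t < 1 →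
      schurQ ξ x = ∑ μ : n.Partition with Multiset.card μ.parts ≤ N,
        aeval t (K n ξ μ) * hallLittlewoodP μ x t

/-! ### Partitions of `5` -/

def p5 : Nat.Partition 5 := ⟨{5}, by decide, by decide⟩
def p41 : Nat.Partition 5 := ⟨{4,1}, by decide, by decide⟩
def p32 : Nat.Partition 5 := ⟨{3,2}, by decide, by decide⟩
def p311 : Nat.Partition 5 := ⟨{3,1,1}, by decide, by decide⟩
def p221 : Nat.Partition 5 := ⟨{2,2,1}, by decide, by decide⟩
def p2111 : Nat.Partition 5 := ⟨{2,1,1,1}, by decide, by decide⟩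
def p11111 : Nat.Partition 5 := ⟨{1,1,1,1,1}, by decide, by decide⟩

theorem ext_count (μ ν : Nat.Partition 5)
    (h : ∀ i ∈ Finset.Icc 1 5, μ.parts.count i = ν.parts.count i) : μ = ν := by
  apply Nat.Partition.ext
  apply Multiset.ext.mpr
  intro a
  by_cases ha : a ∈ Finset.Icc 1 5
  · exact h a ha
  · have key : ∀ ρ : Nat.Partition 5, ρ.parts.count a = 0 := by
      intro ρ
      rw [Multiset.count_eq_zero]
      intro hm
      apply ha
      rw [Finset.mem_Icc]
      refine ⟨ρ.parts_pos hm, ?_⟩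
      have := Multiset.le_sum_of_mem hm
      rw [ρ.parts_sum] at this
      exact this
    rw [key μ, key ν]

theorem univ5 : (Finset.univ : Finset (Nat.Partition 5)) =
    {p5, p41, p32, p311, p221, p2111, p11111} := by
  ext μ
  simp only [Finset.mem_univ, Finset.mem_insert, Finset.mem_singleton, true_iff]
  have h := Finset.sum_multiset_count_of_subset μ.parts (Finset.range 6) (by
    intro a ha
    rw [Multiset.mem_toFinset] at ha
    have := Multiset.le_sum_of_mem ha
    rw [μ.parts_sum] at this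
    simp; omega)
  rw [μ.parts_sum] at h
  simp only [Finset.sum_range_succ, Finset.sum_range_zero, smul_eq_mul] at h
  have key : ∀ ν : Nat.Partition 5, (μ.parts.count 1 = ν.parts.count 1 ∧
      μ.parts.count 2 = ν.parts.count 2 ∧ μ.parts.count 3 = ν.parts.count 3 ∧
      μ.parts.count 4 = ν.parts.count 4 ∧ μ.parts.count 5 = ν.parts.count 5) → μ = ν := by
    intro ν hν
    apply ext_count
    intro i hi
    rw [Finset.mem_Icc] at hi
    obtain ⟨h1, h2⟩ := hi
    interval_cases i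
    · exact hν.1
    · exact hν.2.1
    · exact hν.2.2.1
    · exact hν.2.2.2.1
    · exact hν.2.2.2.2
  have c5 := key p5
  have c41 := key p41
  have c32 := key p32
  have c311 := key p311
  have c221 := key p221
  have c2111 := key p2111
  have c11111 := key p11111
  have e5 : Multiset.count 1 p5.parts = 0 ∧ Multiset.count 2 p5.parts = 0 ∧ Multiset.count 3 p5.parts = 0 ∧ Multiset.count 4 p5.parts = 0 ∧ Multiset.count 5 p5.parts = 1 := by decide
  have e41 : Multiset.count 1 p41.parts = 1 ∧ Multiset.count 2 p41.parts = 0 ∧ Multiset.count 3 p41.parts = 0 ∧ Multiset.count 4 p41.parts = 1 ∧ Multiset.count 5 p41.parts = 0 := by decide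
  have e32 : Multiset.count 1 p32.parts = 0 ∧ Multiset.count 2 p32.parts = 1 ∧ Multiset.count 3 p32.parts = 1 ∧ Multiset.count 4 p32.parts = 0 ∧ Multiset.count 5 p32.parts = 0 := by decide
  have e311 : Multiset.count 1 p311.parts = 2 ∧ Multiset.count 2 p311.parts = 0 ∧ Multiset.count 3 p311.parts = 1 ∧ Multiset.count 4 p311.parts = 0 ∧ Multiset.count 5 p311.parts = 0 := by decide
  have e221 : Multiset.count 1 p221.parts = 1 ∧ Multiset.count 2 p221.parts = 2 ∧ Multiset.count 3 p221.parts = 0 ∧ Multiset.count 4 p221.parts = 0 ∧ Multiset.count 5 p221.parts = 0 := by decide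
  have e2111 : Multiset.count 1 p2111.parts = 3 ∧ Multiset.count 2 p2111.parts = 1 ∧ Multiset.count 3 p2111.parts = 0 ∧ Multiset.count 4 p2111.parts = 0 ∧ Multiset.count 5 p2111.parts = 0 := by decide
  have e11111 : Multiset.count 1 p11111.parts = 5 ∧ Multiset.count 2 p11111.parts = 0 ∧ Multiset.count 3 p11111.parts = 0 ∧ Multiset.count 4 p11111.parts = 0 ∧ Multiset.count 5 p11111.parts = 0 := by decide
  generalize Multiset.count 1 μ.parts = a1 at *
  generalize Multiset.count 2 μ.parts = a2 at *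
  generalize Multiset.count 3 μ.parts = a3 at *
  generalize Multiset.count 4 μ.parts = a4 at *
  generalize Multiset.count 5 μ.parts = a5 at *
  have e : (a1 = 0 ∧ a2 = 0 ∧ a3 = 0 ∧ a4 = 0 ∧ a5 = 1) ∨
      (a1 = 1 ∧ a2 = 0 ∧ a3 = 0 ∧ a4 = 1 ∧ a5 = 0) ∨
      (a1 = 0 ∧ a2 = 1 ∧ a3 = 1 ∧ a4 = 0 ∧ a5 = 0) ∨
      (a1 = 2 ∧ a2 = 0 ∧ a3 = 1 ∧ a4 = 0 ∧ a5 = 0) ∨
      (a1 = 1 ∧ a2 = 2 ∧ a3 = 0 ∧ a4 = 0 ∧ a5 = 0) ∨
      (a1 = 3 ∧ a2 = 1 ∧ a3 = 0 ∧ a4 = 0 ∧ a5 = 0) ∨
      (a1 = 5 ∧ a2 = 0 ∧ a3 = 0 ∧ a4 = 0 ∧ a5 = 0) := by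
    have b5 : a5 ≤ 1 := by omega
    have b4 : a4 ≤ 1 := by omega
    have b3 : a3 ≤ 1 := by omega
    have b2 : a2 ≤ 2 := by omega
    clear c5 c41 c32 c311 c221 c2111 c11111
    interval_cases a5 <;> interval_cases a4 <;> interval_cases a3 <;> interval_cases a2 <;> omega
  clear h
  rcases e with h | h | h | h | h | h | h
  · exact Or.inl (c5 (by omega))
  · exact Or.inr (Or.inl (c41 (by omega)))
  · exact Or.inr (Or.inr (Or.inl (c32 (by omega))))
  · exact Or.inr (Or.inr (Or.inr (Or.inl (c311 (by omega)))))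
  · exact Or.inr (Or.inr (Or.inr (Or.inr (Or.inl (c221 (by omega))))))
  · exact Or.inr (Or.inr (Or.inr (Or.inr (Or.inr (Or.inl (c2111 (by omega)))))))
  · exact Or.inr (Or.inr (Or.inr (Or.inr (Or.inr (Or.inr (c11111 (by omega)))))))

theorem sort_eq (l : List ℕ) (m : Multiset ℕ) (h : (l : Multiset ℕ) = m)
    (hs : l.Pairwise (· ≥ ·)) : m.sort (· ≥ ·) = l := by
  subst h
  rw [Multiset.coe_sort]
  exact List.mergeSort_eq_self _ (by simpa using hs)

theorem part_p5 (i : ℕ) : part p5 i = [5].getD i 0 := by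
  unfold part; rw [sort_eq [5] _ (by decide) (by decide)]
theorem part_p41 (i : ℕ) : part p41 i = [4, 1].getD i 0 := by
  unfold part; rw [sort_eq [4, 1] _ (by decide) (by decide)]
theorem part_p32 (i : ℕ) : part p32 i = [3, 2].getD i 0 := by
  unfold part; rw [sort_eq [3, 2] _ (by decide) (by decide)]
theorem part_p311 (i : ℕ) : part p311 i = [3, 1, 1].getD i 0 := by
  unfold part; rw [sort_eq [3, 1, 1] _ (by decide) (by decide)]
theorem part_p221 (i : ℕ) : part p221 i = [2, 2, 1].getD i 0 := by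
  unfold part; rw [sort_eq [2, 2, 1] _ (by decide) (by decide)]
theorem part_p2111 (i : ℕ) : part p2111 i = [2, 1, 1, 1].getD i 0 := by
  unfold part; rw [sort_eq [2, 1, 1, 1] _ (by decide) (by decide)]

/-! ### The value of `Q` -/

theorem diagram : shiftedDiagram p32 = {(0,0), (0,1), (0,2), (1,1), (1,2)} := by
  unfold shiftedDiagram
  simp only [part_p32]
  decide

/-- the cells in the order row by row -/
def cellOf : Fin 5 → ℕ × ℕ := ![(0,0), (0,1), (0,2), (1,1), (1,2)]

theorem cellOf_mem (i : Fin 5) : cellOf i ∈ shiftedDiagram p32 := by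
  rw [diagram]; revert i; decide

theorem cellOf_bij : Function.Bijective
    (fun i : Fin 5 => (⟨cellOf i, cellOf_mem i⟩ : {c : ℕ × ℕ // c ∈ shiftedDiagram p32})) := by
  constructor
  · intro i j h
    have h' : cellOf i = cellOf j := congrArg Subtype.val h
    revert h'; revert i j; decide
  · rintro ⟨c, hc⟩
    rw [diagram] at hc
    simp only [Finset.mem_insert, Finset.mem_singleton] at hc
    rcases hc with rfl | rfl | rfl | rfl | rfl
    · exact ⟨0, rfl⟩
    · exact ⟨1, rfl⟩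
    · exact ⟨2, rfl⟩
    · exact ⟨3, rfl⟩
    · exact ⟨4, rfl⟩

noncomputable def cellEquiv : Fin 5 ≃ {c : ℕ × ℕ // c ∈ shiftedDiagram p32} :=
  Equiv.ofBijective _ cellOf_bij

theorem cellEquiv_val (i : Fin 5) : (cellEquiv i).1 = cellOf i := rfl

/-- the tableau condition for a filling given by its five entries -/
def Ok {N : ℕ} (a b c d e : Letter N) : Prop :=
  (rank a ≤ rank b ∧ (a = b → b.2 = true)) ∧
  (rank b ≤ rank c ∧ (b = c → c.2 = true) ∧ (a = c → c.2 = true)) ∧
  (rank b ≤ rank d ∧ (b = d → d.2 = false)) ∧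
  (rank c ≤ rank e ∧ (c = e → e.2 = false) ∧ rank d ≤ rank e ∧ (d = e → e.2 = true))

instance {N : ℕ} (a b c d e : Letter N) : Decidable (Ok a b c d e) := by
  unfold Ok; infer_instance

theorem marked_iff {N : ℕ} (f : Fin 5 → Letter N) :
    IsMarkedTableau p32 (fun c => f (cellEquiv.symm c)) ↔ Ok (f 0) (f 1) (f 2) (f 3) (f 4) := by
  unfold IsMarkedTableau Ok
  simp only [cellEquiv.surjective.forall, cellEquiv_val, Equiv.symm_apply_apply, ne_eq,
    EmbeddingLike.apply_eq_iff_eq]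
  constructor
  · rintro ⟨h1, h2, h3, h4⟩
    refine ⟨⟨h1 0 1 rfl (by decide), fun h => ?_⟩, ⟨h1 1 2 rfl (by decide), fun h => ?_, fun h => ?_⟩,
      ⟨h2 1 3 rfl (by decide), fun h => ?_⟩, ⟨h2 2 4 rfl (by decide), fun h => ?_,
      h1 3 4 rfl (by decide), fun h => ?_⟩⟩
    · exact h4 1 0 (by decide) rfl h.symm
    · exact h4 2 1 (by decide) rfl h.symm
    · exact h4 2 0 (by decide) rfl h.symm
    · exact h3 3 1 (by decide) rfl h.symm
    · exact h3 4 2 (by decide) rfl h.symm
    · exact h4 4 3 (by decide) rfl h.symm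
  · rintro ⟨⟨a1, a2⟩, ⟨b1, b2, b3⟩, ⟨c1, c2⟩, d1, d2, d3, d4⟩
    refine ⟨?_, ?_, ?_, ?_⟩
    · intro c c' h h'
      fin_cases c <;> fin_cases c' <;> simp [cellOf] at h h' ⊢ <;> omega
    · intro c c' h h'
      fin_cases c <;> fin_cases c' <;> simp [cellOf] at h h' ⊢ <;> omega
    · intro c c' h h' h''
      fin_cases c <;> fin_cases c' <;> simp [cellOf] at h h' h'' ⊢
      · rw [h'']; exact c2 h''
      · rw [h'']; exact d2 h''
      · exact c2 h''.symm
      · exact d2 h''.symm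
    · intro c c' h h' h''
      fin_cases c <;> fin_cases c' <;> simp [cellOf] at h h' h'' ⊢
      · rw [h'']; exact a2 h''
      · rw [h'']; exact b3 h''
      · exact a2 h''.symm
      · rw [h'']; exact b2 h''
      · exact b3 h''.symm
      · exact b2 h''.symm
      · rw [h'']; exact d4 h''
      · exact d4 h''.symm

theorem sum_fin5 {α : Type*} [Fintype α] {R : Type*} [AddCommMonoid R]
    (F : α → α → α → α → α → R) :
    ∑ f : Fin 5 → α, F (f 0) (f 1) (f 2) (f 3) (f 4) =
      ∑ a, ∑ b, ∑ c, ∑ d, ∑ e, F a b c d e := by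
  rw [← (Fin.consEquiv (fun _ : Fin 5 => α)).sum_comp, Fintype.sum_prod_type]
  refine Finset.sum_congr rfl fun a _ => ?_
  rw [← (Fin.consEquiv (fun _ : Fin 4 => α)).sum_comp, Fintype.sum_prod_type]
  refine Finset.sum_congr rfl fun b _ => ?_
  rw [← (Fin.consEquiv (fun _ : Fin 3 => α)).sum_comp, Fintype.sum_prod_type]
  refine Finset.sum_congr rfl fun c _ => ?_
  rw [← (Fin.consEquiv (fun _ : Fin 2 => α)).sum_comp, Fintype.sum_prod_type]
  refine Finset.sum_congr rfl fun d _ => ?_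
  rw [← (Fin.consEquiv (fun _ : Fin 1 => α)).sum_comp, Fintype.sum_prod_type]
  refine Finset.sum_congr rfl fun e _ => ?_
  rw [Fintype.sum_unique]
  rfl

theorem schurQ_p32 {N : ℕ} (x : Fin N → ℝ) :
    schurQ p32 x = ∑ a : Letter N, ∑ b : Letter N, ∑ c : Letter N, ∑ d : Letter N, ∑ e : Letter N,
      if Ok a b c d e then x a.1 * x b.1 * x c.1 * x d.1 * x e.1 else 0 := by
  classical
  rw [← sum_fin5 (fun a b c d e : Letter N =>
    if Ok a b c d e then x a.1 * x b.1 * x c.1 * x d.1 * x e.1 else 0)]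
  unfold schurQ
  rw [← (Equiv.arrowCongr cellEquiv (Equiv.refl (Letter N))).sum_comp]
  refine Finset.sum_congr rfl fun f _ => ?_
  have h1 : (Equiv.arrowCongr cellEquiv (Equiv.refl (Letter N))) f =
      fun c => f (cellEquiv.symm c) := rfl
  rw [h1]
  have h2 : ∏ c : {c : ℕ × ℕ // c ∈ shiftedDiagram p32}, x (f (cellEquiv.symm c)).1 =
      x (f 0).1 * x (f 1).1 * x (f 2).1 * x (f 3).1 * x (f 4).1 := by
    rw [← cellEquiv.prod_comp]
    simp only [Equiv.symm_apply_apply, Fin.prod_univ_five]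
  rw [h2]
  by_cases h : Ok (f 0) (f 1) (f 2) (f 3) (f 4)
  · rw [if_pos h, if_pos ((marked_iff f).2 h)]
  · rw [if_neg h, if_neg (fun h' => h ((marked_iff f).1 h'))]

/-- an integral version which can be evaluated -/
def qInt {N : ℕ} (z : Fin N → ℤ) : ℤ :=
  ∑ a : Letter N, ∑ b : Letter N, if (rank a ≤ rank b ∧ (a = b → b.2 = true)) then
    ∑ c : Letter N, if (rank b ≤ rank c ∧ (b = c → c.2 = true) ∧ (a = c → c.2 = true)) then
      ∑ d : Letter N, if (rank b ≤ rank d ∧ (b = d → d.2 = false)) then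
        ∑ e : Letter N, if (rank c ≤ rank e ∧ (c = e → e.2 = false) ∧ rank d ≤ rank e ∧
          (d = e → e.2 = true)) then z a.1 * z b.1 * z c.1 * z d.1 * z e.1 else 0
      else 0
    else 0
  else 0

theorem schurQ_int {N : ℕ} (z : Fin N → ℤ) :
    schurQ p32 (fun i => (z i : ℝ)) = ((qInt z : ℤ) : ℝ) := by
  rw [schurQ_p32]
  unfold qInt Ok
  push_cast
  simp only [ite_and, Finset.sum_ite_irrel, Finset.sum_const_zero]

/-! ### Hall-Littlewood functions in at most four variables -/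

/-- the permutations of `1` letters -/
def perms1 : List (Equiv.Perm (Fin 1)) :=
  [⟨![0], ![0], by decide, by decide⟩]

theorem sum_perms1 (f : Equiv.Perm (Fin 1) → ℝ) : ∑ w, f w = (perms1.map f).sum := by
  have h : (Finset.univ : Finset (Equiv.Perm (Fin 1))).val = (perms1 : Multiset _) := by
    decide +kernel
  rw [Finset.sum_eq_multiset_sum, h, Multiset.map_coe, Multiset.sum_coe]

/-- the permutations of `2` letters -/
def perms2 : List (Equiv.Perm (Fin 2)) :=
  [⟨![0, 1], ![0, 1], by decide, by decide⟩,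
   ⟨![1, 0], ![1, 0], by decide, by decide⟩]

theorem sum_perms2 (f : Equiv.Perm (Fin 2) → ℝ) : ∑ w, f w = (perms2.map f).sum := by
  have h : (Finset.univ : Finset (Equiv.Perm (Fin 2))).val = (perms2 : Multiset _) := by
    decide +kernel
  rw [Finset.sum_eq_multiset_sum, h, Multiset.map_coe, Multiset.sum_coe]

/-- the permutations of `3` letters -/
def perms3 : List (Equiv.Perm (Fin 3)) :=
  [⟨![0, 1, 2], ![0, 1, 2], by decide, by decide⟩,
   ⟨![0, 2, 1], ![0, 2, 1], by decide, by decide⟩,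
   ⟨![1, 0, 2], ![1, 0, 2], by decide, by decide⟩,
   ⟨![1, 2, 0], ![2, 0, 1], by decide, by decide⟩,
   ⟨![2, 0, 1], ![1, 2, 0], by decide, by decide⟩,
   ⟨![2, 1, 0], ![2, 1, 0], by decide, by decide⟩]

theorem sum_perms3 (f : Equiv.Perm (Fin 3) → ℝ) : ∑ w, f w = (perms3.map f).sum := by
  have h : (Finset.univ : Finset (Equiv.Perm (Fin 3))).val = (perms3 : Multiset _) := by
    decide +kernel
  rw [Finset.sum_eq_multiset_sum, h, Multiset.map_coe, Multiset.sum_coe]

/-- the permutations of `4` letters -/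
def perms4 : List (Equiv.Perm (Fin 4)) :=
  [⟨![0, 1, 2, 3], ![0, 1, 2, 3], by decide, by decide⟩,
   ⟨![0, 1, 3, 2], ![0, 1, 3, 2], by decide, by decide⟩,
   ⟨![0, 2, 1, 3], ![0, 2, 1, 3], by decide, by decide⟩,
   ⟨![0, 2, 3, 1], ![0, 3, 1, 2], by decide, by decide⟩,
   ⟨![0, 3, 1, 2], ![0, 2, 3, 1], by decide, by decide⟩,
   ⟨![0, 3, 2, 1], ![0, 3, 2, 1], by decide, by decide⟩,
   ⟨![1, 0, 2, 3], ![1, 0, 2, 3], by decide, by decide⟩,
   ⟨![1, 0, 3, 2], ![1, 0, 3, 2], by decide, by decide⟩,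
   ⟨![1, 2, 0, 3], ![2, 0, 1, 3], by decide, by decide⟩,
   ⟨![1, 2, 3, 0], ![3, 0, 1, 2], by decide, by decide⟩,
   ⟨![1, 3, 0, 2], ![2, 0, 3, 1], by decide, by decide⟩,
   ⟨![1, 3, 2, 0], ![3, 0, 2, 1], by decide, by decide⟩,
   ⟨![2, 0, 1, 3], ![1, 2, 0, 3], by decide, by decide⟩,
   ⟨![2, 0, 3, 1], ![1, 3, 0, 2], by decide, by decide⟩,
   ⟨![2, 1, 0, 3], ![2, 1, 0, 3], by decide, by decide⟩,
   ⟨![2, 1, 3, 0], ![3, 1, 0, 2], by decide, by decide⟩,
   ⟨![2, 3, 0, 1], ![2, 3, 0, 1], by decide, by decide⟩,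
   ⟨![2, 3, 1, 0], ![3, 2, 0, 1], by decide, by decide⟩,
   ⟨![3, 0, 1, 2], ![1, 2, 3, 0], by decide, by decide⟩,
   ⟨![3, 0, 2, 1], ![1, 3, 2, 0], by decide, by decide⟩,
   ⟨![3, 1, 0, 2], ![2, 1, 3, 0], by decide, by decide⟩,
   ⟨![3, 1, 2, 0], ![3, 1, 2, 0], by decide, by decide⟩,
   ⟨![3, 2, 0, 1], ![2, 3, 1, 0], by decide, by decide⟩,
   ⟨![3, 2, 1, 0], ![3, 2, 1, 0], by decide, by decide⟩]

theorem sum_perms4 (f : Equiv.Perm (Fin 4) → ℝ) : ∑ w, f w = (perms4.map f).sum := by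
  have h : (Finset.univ : Finset (Equiv.Perm (Fin 4))).val = (perms4 : Multiset _) := by
    decide +kernel
  rw [Finset.sum_eq_multiset_sum, h, Multiset.map_coe, Multiset.sum_coe]

/-- a summand in the definition of the Hall-Littlewood function -/
noncomputable def term1 (e : ℕ → ℕ) (_t a : ℝ) : ℝ :=
  (a ^ e 0)

theorem hall1 {n : ℕ} (μ : n.Partition) (t a : ℝ) :
    hallLittlewoodP μ ![a] t = 1 / vProduct 1 μ t * (
      term1 (part μ) t a) := by
  unfold hallLittlewoodP
  rw [sum_perms1]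
  congr 1
  simp [perms1, term1]
  try ring

/-- a summand in the definition of the Hall-Littlewood function -/
noncomputable def term2 (e : ℕ → ℕ) (t a b : ℝ) : ℝ :=
  (a ^ e 0 * b ^ e 1) *
    ((a - t * b) / (a - b))

theorem hall2 {n : ℕ} (μ : n.Partition) (t a b : ℝ) :
    hallLittlewoodP μ ![a, b] t = 1 / vProduct 2 μ t * (
      term2 (part μ) t a b +
      term2 (part μ) t b a) := by
  unfold hallLittlewoodP
  rw [sum_perms2]
  congr 1
  simp [perms2, term2, Fin.prod_univ_succ]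
  try ring

/-- a summand in the definition of the Hall-Littlewood function -/
noncomputable def term3 (e : ℕ → ℕ) (t a b c : ℝ) : ℝ :=
  (a ^ e 0 * b ^ e 1 * c ^ e 2) *
    ((a - t * b) / (a - b)) *
    ((a - t * c) / (a - c)) *
    ((b - t * c) / (b - c))

theorem hall3 {n : ℕ} (μ : n.Partition) (t a b c : ℝ) :
    hallLittlewoodP μ ![a, b, c] t = 1 / vProduct 3 μ t * (
      term3 (part μ) t a b c +
      term3 (part μ) t a c b +
      term3 (part μ) t b a c +
      term3 (part μ) t b c a +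
      term3 (part μ) t c a b +
      term3 (part μ) t c b a) := by
  unfold hallLittlewoodP
  rw [sum_perms3]
  congr 1
  simp [perms3, term3, Fin.prod_univ_succ]
  try ring

/-- a summand in the definition of the Hall-Littlewood function -/
noncomputable def term4 (e : ℕ → ℕ) (t a b c d : ℝ) : ℝ :=
  (a ^ e 0 * b ^ e 1 * c ^ e 2 * d ^ e 3) *
    ((a - t * b) / (a - b)) *
    ((a - t * c) / (a - c)) *
    ((a - t * d) / (a - d)) *
    ((b - t * c) / (b - c)) *
    ((b - t * d) / (b - d)) *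
    ((c - t * d) / (c - d))

theorem hall4 {n : ℕ} (μ : n.Partition) (t a b c d : ℝ) :
    hallLittlewoodP μ ![a, b, c, d] t = 1 / vProduct 4 μ t * (
      term4 (part μ) t a b c d +
      term4 (part μ) t a b d c +
      term4 (part μ) t a c b d +
      term4 (part μ) t a c d b +
      term4 (part μ) t a d b c +
      term4 (part μ) t a d c b +
      term4 (part μ) t b a c d +
      term4 (part μ) t b a d c +
      term4 (part μ) t b c a d +
      term4 (part μ) t b c d a +
      term4 (part μ) t b d a c +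
      term4 (part μ) t b d c a +
      term4 (part μ) t c a b d +
      term4 (part μ) t c a d b +
      term4 (part μ) t c b a d +
      term4 (part μ) t c b d a +
      term4 (part μ) t c d a b +
      term4 (part μ) t c d b a +
      term4 (part μ) t d a b c +
      term4 (part μ) t d a c b +
      term4 (part μ) t d b a c +
      term4 (part μ) t d b c a +
      term4 (part μ) t d c a b +
      term4 (part μ) t d c b a) := by
  unfold hallLittlewoodP
  rw [sum_perms4]
  congr 1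
  simp [perms4, term4, Fin.prod_univ_succ]
  try ring


/-! ### Values of the Hall-Littlewood functions -/

theorem vProduct_eq (N : ℕ) (μ : Nat.Partition 5) (t : ℝ) (k c1 c2 c3 c4 c5 : ℕ)
    (h : Multiset.card μ.parts = k ∧ μ.parts.count 1 = c1 ∧ μ.parts.count 2 = c2 ∧
      μ.parts.count 3 = c3 ∧ μ.parts.count 4 = c4 ∧ μ.parts.count 5 = c5) :
    vProduct N μ t = vFactor (N - k) t * (vFactor c1 t * vFactor c2 t * vFactor c3 t *
      vFactor c4 t * vFactor c5 t) := by
  obtain ⟨rfl, rfl, rfl, rfl, rfl, rfl⟩ := h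
  unfold vProduct
  rw [show Finset.Icc 1 5 = {1, 2, 3, 4, 5} by decide]
  simp [mul_assoc]

theorem vFactor0 (t : ℝ) : vFactor 0 t = 1 := by simp [vFactor]
theorem vFactor1 (t : ℝ) : vFactor 1 t = 1 := by simp [vFactor]
theorem vFactor2 (t : ℝ) : vFactor 2 t = 1 + t := by
  simp [vFactor, Finset.prod_range_succ, Finset.sum_range_succ]
theorem vFactor3 (t : ℝ) : vFactor 3 t = (1 + t) * (1 + t + t ^ 2) := by
  simp [vFactor, Finset.prod_range_succ, Finset.sum_range_succ]

theorem val_p5_1 (t : ℝ) (ht : 0 < t) :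
    hallLittlewoodP p5 ![1] t = (1) := by
  rw [hall1, vProduct_eq 1 p5 t 1 0 0 0 0 1 (by decide)]
  norm_num [vFactor0, vFactor1, vFactor2, vFactor3, term1, part_p5]
  try field_simp
  try ring

theorem val_p41_1_2 (t : ℝ) (ht : 0 < t) :
    hallLittlewoodP p41 ![1, 2] t = (30) + (-12) * t ^ 1 := by
  rw [hall2, vProduct_eq 2 p41 t 2 1 0 0 1 0 (by decide)]
  norm_num [vFactor0, vFactor1, vFactor2, vFactor3, term2, part_p41]
  try field_simp
  try ring

theorem val_p41_1_3 (t : ℝ) (ht : 0 < t) :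
    hallLittlewoodP p41 ![1, 3] t = (120) + (-36) * t ^ 1 := by
  rw [hall2, vProduct_eq 2 p41 t 2 1 0 0 1 0 (by decide)]
  norm_num [vFactor0, vFactor1, vFactor2, vFactor3, term2, part_p41]
  try field_simp
  try ring

theorem val_p32_1_2 (t : ℝ) (ht : 0 < t) :
    hallLittlewoodP p32 ![1, 2] t = (12) := by
  rw [hall2, vProduct_eq 2 p32 t 2 0 1 1 0 0 (by decide)]
  norm_num [vFactor0, vFactor1, vFactor2, vFactor3, term2, part_p32]
  try field_simp
  try ring

theorem val_p32_1_3 (t : ℝ) (ht : 0 < t) :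
    hallLittlewoodP p32 ![1, 3] t = (36) := by
  rw [hall2, vProduct_eq 2 p32 t 2 0 1 1 0 0 (by decide)]
  norm_num [vFactor0, vFactor1, vFactor2, vFactor3, term2, part_p32]
  try field_simp
  try ring

theorem val_p32_1_m1_2 (t : ℝ) (ht : 0 < t) :
    hallLittlewoodP p32 ![1, -1, 2] t = (8) + (8) * t ^ 1 := by
  rw [hall3, vProduct_eq 3 p32 t 2 0 1 1 0 0 (by decide)]
  norm_num [vFactor0, vFactor1, vFactor2, vFactor3, term3, part_p32]
  try field_simp
  try ring

theorem val_p311_1_m1_2 (t : ℝ) (ht : 0 < t) :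
    hallLittlewoodP p311 ![1, -1, 2] t = (-10) + (-2) * t ^ 1 := by
  rw [hall3, vProduct_eq 3 p311 t 3 2 0 1 0 0 (by decide)]
  norm_num [vFactor0, vFactor1, vFactor2, vFactor3, term3, part_p311]
  try field_simp
  try ring

theorem val_p221_1_m1_2 (t : ℝ) (ht : 0 < t) :
    hallLittlewoodP p221 ![1, -1, 2] t = (2) := by
  rw [hall3, vProduct_eq 3 p221 t 3 1 2 0 0 0 (by decide)]
  norm_num [vFactor0, vFactor1, vFactor2, vFactor3, term3, part_p221]
  try field_simp
  try ring

theorem val_p32_1_2_m3 (t : ℝ) (ht : 0 < t) :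
    hallLittlewoodP p32 ![1, 2, -3] t = (-42) := by
  rw [hall3, vProduct_eq 3 p32 t 2 0 1 1 0 0 (by decide)]
  norm_num [vFactor0, vFactor1, vFactor2, vFactor3, term3, part_p32]
  try field_simp
  try ring

theorem val_p311_1_2_m3 (t : ℝ) (ht : 0 < t) :
    hallLittlewoodP p311 ![1, 2, -3] t = (-42) + (-42) * t ^ 1 := by
  rw [hall3, vProduct_eq 3 p311 t 3 2 0 1 0 0 (by decide)]
  norm_num [vFactor0, vFactor1, vFactor2, vFactor3, term3, part_p311]
  try field_simp
  try ring

theorem val_p221_1_2_m3 (t : ℝ) (ht : 0 < t) :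
    hallLittlewoodP p221 ![1, 2, -3] t = (42) := by
  rw [hall3, vProduct_eq 3 p221 t 3 1 2 0 0 0 (by decide)]
  norm_num [vFactor0, vFactor1, vFactor2, vFactor3, term3, part_p221]
  try field_simp
  try ring

theorem val_p32_1_2_3_4 (t : ℝ) (ht : 0 < t) :
    hallLittlewoodP p32 ![1, 2, 3, 4] t = (5740) + (-4520) * t ^ 1 + (240) * t ^ 2 + (240) * t ^ 3 := by
  rw [hall4, vProduct_eq 4 p32 t 2 0 1 1 0 0 (by decide)]
  norm_num [vFactor0, vFactor1, vFactor2, vFactor3, term4, part_p32]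
  try field_simp
  try ring

theorem val_p311_1_2_3_4 (t : ℝ) (ht : 0 < t) :
    hallLittlewoodP p311 ![1, 2, 3, 4] t = (3010) + (-1750) * t ^ 1 := by
  rw [hall4, vProduct_eq 4 p311 t 3 2 0 1 0 0 (by decide)]
  norm_num [vFactor0, vFactor1, vFactor2, vFactor3, term4, part_p311]
  try field_simp
  try ring

theorem val_p221_1_2_3_4 (t : ℝ) (ht : 0 < t) :
    hallLittlewoodP p221 ![1, 2, 3, 4] t = (1510) + (-240) * t ^ 1 + (-240) * t ^ 2 := by
  rw [hall4, vProduct_eq 4 p221 t 3 1 2 0 0 0 (by decide)]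
  norm_num [vFactor0, vFactor1, vFactor2, vFactor3, term4, part_p221]
  try field_simp
  try ring

theorem val_p2111_1_2_3_4 (t : ℝ) (ht : 0 < t) :
    hallLittlewoodP p2111 ![1, 2, 3, 4] t = (240) := by
  rw [hall4, vProduct_eq 4 p2111 t 4 3 1 0 0 0 (by decide)]
  norm_num [vFactor0, vFactor1, vFactor2, vFactor3, term4, part_p2111]
  try field_simp
  try ring


/-! ### Integral values of `Q_{(3,2)}` -/

theorem schurQ_cast {N : ℕ} (x : Fin N → ℝ) (z : Fin N → ℤ) (q : ℤ) (hx : x = fun i => (z i : ℝ))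
    (hq : qInt z = q) : schurQ p32 x = (q : ℝ) := by
  rw [hx, schurQ_int, hq]

theorem q_1 : schurQ p32 ![(1 : ℝ)] = 0 := by
  rw [schurQ_cast _ ![1] 0 (by ext i; fin_cases i <;> simp) (by decide +kernel)]; norm_num
theorem q_1_2 : schurQ p32 ![(1 : ℝ), 2] = 48 := by
  rw [schurQ_cast _ ![1, 2] 48 (by ext i; fin_cases i <;> simp) (by decide +kernel)]; norm_num
theorem q_1_3 : schurQ p32 ![(1 : ℝ), 3] = 144 := by
  rw [schurQ_cast _ ![1, 3] 144 (by ext i; fin_cases i <;> simp) (by decide +kernel)]; norm_num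
theorem q_1_m1_2 : schurQ p32 ![(1 : ℝ), -1, 2] = 0 := by
  rw [schurQ_cast _ ![1, -1, 2] 0 (by ext i; fin_cases i <;> simp) (by decide +kernel)]; norm_num
theorem q_1_2_m3 : schurQ p32 ![(1 : ℝ), 2, -3] = -168 := by
  rw [schurQ_cast _ ![1, 2, -3] (-168) (by ext i; fin_cases i <;> simp) (by decide +kernel)]
  norm_num
theorem q_1_2_3_4 : schurQ p32 ![(1 : ℝ), 2, 3, 4] = 41040 := by
  rw [schurQ_cast _ ![1, 2, 3, 4] 41040 (by ext i; fin_cases i <;> simp) (by decide +kernel)]
  norm_num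

/-! ### The sums over the partitions of `5` -/

theorem sum1 (f : Nat.Partition 5 → ℝ) :
    ∑ μ : Nat.Partition 5 with Multiset.card μ.parts ≤ 1, f μ = f p5 := by
  rw [univ5, show Finset.filter (fun μ : Nat.Partition 5 => Multiset.card μ.parts ≤ 1)
    {p5, p41, p32, p311, p221, p2111, p11111} = {p5} by decide]
  simp

theorem sum2 (f : Nat.Partition 5 → ℝ) :
    ∑ μ : Nat.Partition 5 with Multiset.card μ.parts ≤ 2, f μ = f p5 + (f p41 + f p32) := by
  rw [univ5, show Finset.filter (fun μ : Nat.Partition 5 => Multiset.card μ.parts ≤ 2)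
    {p5, p41, p32, p311, p221, p2111, p11111} = {p5, p41, p32} by decide]
  rw [Finset.sum_insert (by decide), Finset.sum_insert (by decide), Finset.sum_singleton]

theorem sum3 (f : Nat.Partition 5 → ℝ) :
    ∑ μ : Nat.Partition 5 with Multiset.card μ.parts ≤ 3, f μ =
      f p5 + (f p41 + (f p32 + (f p311 + f p221))) := by
  rw [univ5, show Finset.filter (fun μ : Nat.Partition 5 => Multiset.card μ.parts ≤ 3)
    {p5, p41, p32, p311, p221, p2111, p11111} = {p5, p41, p32, p311, p221} by decide]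
  rw [Finset.sum_insert (by decide), Finset.sum_insert (by decide), Finset.sum_insert (by decide),
    Finset.sum_insert (by decide), Finset.sum_singleton]

theorem sum4 (f : Nat.Partition 5 → ℝ) :
    ∑ μ : Nat.Partition 5 with Multiset.card μ.parts ≤ 4, f μ =
      f p5 + (f p41 + (f p32 + (f p311 + (f p221 + f p2111)))) := by
  rw [univ5, show Finset.filter (fun μ : Nat.Partition 5 => Multiset.card μ.parts ≤ 4)
    {p5, p41, p32, p311, p221, p2111, p11111} = {p5, p41, p32, p311, p221, p2111} by decide]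
  rw [Finset.sum_insert (by decide), Finset.sum_insert (by decide), Finset.sum_insert (by decide),
    Finset.sum_insert (by decide), Finset.sum_insert (by decide), Finset.sum_singleton]

/-! ### The spin Kostka polynomials `K^-_{(3,2) μ}` -/

theorem values (K : ∀ n : ℕ, n.Partition → n.Partition → ℤ[X]) (hK : IsSpinKostka K) (t : ℝ)
    (ht : 0 < t) (ht1 : t < 1) :
    aeval t (K 5 p32 p2111) = 4 * (2 * t + 3 * t ^ 2 + 2 * t ^ 3 + t ^ 4) := by
  have hs : p32.parts.Nodup := by decide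
  have e1 := hK 5 p32 hs 1 ![1] (by intro i j _; exact Subsingleton.elim i j) t ht ht1
  have e2 := hK 5 p32 hs 2 ![1, 2] (by
    intro i j h; fin_cases i <;> fin_cases j <;>
      first | rfl | (exfalso; revert h; norm_num)) t ht ht1
  have e3 := hK 5 p32 hs 2 ![1, 3] (by
    intro i j h; fin_cases i <;> fin_cases j <;>
      first | rfl | (exfalso; revert h; norm_num)) t ht ht1
  have e4 := hK 5 p32 hs 3 ![1, -1, 2] (by
    intro i j h; fin_cases i <;> fin_cases j <;>
      first | rfl | (exfalso; revert h; norm_num)) t ht ht1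
  have e5 := hK 5 p32 hs 3 ![1, 2, -3] (by
    intro i j h; fin_cases i <;> fin_cases j <;>
      first | rfl | (exfalso; revert h; norm_num)) t ht ht1
  have e6 := hK 5 p32 hs 4 ![1, 2, 3, 4] (by
    intro i j h; fin_cases i <;> fin_cases j <;>
      first | rfl | (exfalso; revert h; norm_num)) t ht ht1
  rw [q_1, sum1, val_p5_1 t ht] at e1
  rw [q_1_2, sum2, val_p41_1_2 t ht, val_p32_1_2 t ht] at e2
  rw [q_1_3, sum2, val_p41_1_3 t ht, val_p32_1_3 t ht] at e3
  rw [q_1_m1_2, sum3, val_p32_1_m1_2 t ht, val_p311_1_m1_2 t ht, val_p221_1_m1_2 t ht] at e4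
  rw [q_1_2_m3, sum3, val_p32_1_2_m3 t ht, val_p311_1_2_m3 t ht, val_p221_1_2_m3 t ht] at e5
  rw [q_1_2_3_4, sum4, val_p32_1_2_3_4 t ht, val_p311_1_2_3_4 t ht, val_p221_1_2_3_4 t ht,
    val_p2111_1_2_3_4 t ht] at e6
  have k5 : aeval t (K 5 p32 p5) = 0 := by linarith
  rw [k5] at e2 e3 e4 e5 e6
  have k41 : aeval t (K 5 p32 p41) = 0 := by linarith
  rw [k41] at e2 e3 e4 e5 e6
  have k32 : aeval t (K 5 p32 p32) = 4 := by linarith
  rw [k32] at e4 e5 e6
  generalize aeval t (K 5 p32 p311) = a at *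
  generalize aeval t (K 5 p32 p221) = b at *
  generalize aeval t (K 5 p32 p2111) = c at *
  have hb : b = (1 + t) * a := by linear_combination (-1 / 42) * e5
  subst hb
  have ha : a = 4 * (1 + t) := by linear_combination (1 / 8) * e4
  subst ha
  linear_combination (-1 / 240) * e6

theorem poly_eq (p q : ℤ[X]) (h : ∀ t : ℝ, 0 < t → t < 1 → aeval t p = aeval t q) : p = q := by
  apply Polynomial.map_injective (Int.castRingHom ℝ) Int.cast_injective
  apply Polynomial.eq_of_infinite_eval_eq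
  apply Set.Infinite.mono _ (Set.Ioo_infinite (show (0 : ℝ) < 1 by norm_num))
  intro t ht
  have := h t ht.1 ht.2
  simpa [Polynomial.aeval_def, Polynomial.eval₂_eq_eval_map] using this

/-- **Spin Kostka polynomials are not palindromic in general.** For the family `K` of the spin
Kostka polynomials `K^-_{ξ μ}` one has `K^-_{(3,2),(2,1,1,1)} = 4 (2 t + 3 t ^ 2 + 2 t ^ 3 + t ^ 4)`.
In particular it is not true that for all strict `ξ` and all `μ` there is an integer `m` with
`t ^ m K^-_{ξ μ}(1 / t) = K^-_{ξ μ}(t)`. -/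
theorem result (K : ∀ n : ℕ, n.Partition → n.Partition → ℤ[X]) (hK : IsSpinKostka K) :
    K 5 p32 p2111 = 4 * (2 * X + 3 * X ^ 2 + 2 * X ^ 3 + X ^ 4) ∧
    ¬ ∀ (n : ℕ) (ξ μ : n.Partition), ξ.parts.Nodup →
      ∃ m : ℤ, ∀ t : ℝ, t ≠ 0 → t ^ m * aeval t⁻¹ (K n ξ μ) = aeval t (K n ξ μ) := by
  have h : K 5 p32 p2111 = 4 * (2 * X + 3 * X ^ 2 + 2 * X ^ 3 + X ^ 4) := by
    apply poly_eq
    intro t ht ht1
    rw [values K hK t ht ht1]
    simp [map_ofNat]
  refine ⟨h, fun hall => ?_⟩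
  obtain ⟨m, hm⟩ := hall 5 p32 p2111 (by decide)
  have := hm 2 (by norm_num)
  rw [h] at this
  simp [map_ofNat] at this
  norm_num at this
  rcases le_or_gt m 4 with h4 | h4
  · have h5 : (2 : ℝ) ^ m ≤ 2 ^ (4 : ℤ) := zpow_le_zpow_right₀ (by norm_num) h4
    norm_num at h5
    nlinarith
  · have h5 : (2 : ℝ) ^ (5 : ℤ) ≤ 2 ^ m := zpow_le_zpow_right₀ (by norm_num) (by omega)
    norm_num at h5
    nlinarith

end Pool.Agent.Results.MP_2c9e21_co.NotPalindromic
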